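import Pool.Agent.W425.GN.Defs

set_option autoImplicit false

/-! GN-A5: composition of operators. -/

namespace Pool.Agent.W196.GN

open MvPolynomial Pool.Agent.W425.GN

section
variable {n : ℕ} {R : Type} [CommRing R]

theorem act_add (P Q : MvPolynomial (Sy n) R) (s : ℕ) (φ : MvPolynomial (Fin n) R) :
    act (P + Q) s φ = act P s φ + act Q s φ := by
  unfold act; rw [map_add]

theorem act_smul (c : R) (P : MvPolynomial (Sy n) R) (s : ℕ) (φ : MvPolynomial (Fin n) R) :
    act (c • P) s φ = c • act P s φ := by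
  unfold act; rw [map_smul]

/-- the composition with the operator of symbol `Q` on the left is given by a symbol -/
def Dn (Q : MvPolynomial (Sy n) R) : Prop := ∀ P : MvPolynomial (Sy n) R,
  ∃ W : MvPolynomial (Sy n) R, ∀ (s : ℕ) (φ : MvPolynomial (Fin n) R),
    act Q s (act P s φ) = act W s φ

theorem Dn_add {Q Q' : MvPolynomial (Sy n) R} (h : Dn Q) (h' : Dn Q') : Dn (Q + Q') := by
  intro P
  obtain ⟨W, hW⟩ := h P
  obtain ⟨W', hW'⟩ := h' P
  refine ⟨W + W', fun s φ => ?_⟩
  rw [act_add, act_add, hW, hW']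

theorem Dn_smul (c : R) {Q : MvPolynomial (Sy n) R} (h : Dn Q) : Dn (c • Q) := by
  intro P
  obtain ⟨W, hW⟩ := h P
  refine ⟨c • W, fun s φ => ?_⟩
  rw [act_smul, act_smul, hW]

theorem Dn_one (h1 : TaskA1) : Dn (1 : MvPolynomial (Sy n) R) := by
  intro P
  refine ⟨P, fun s φ => ?_⟩
  exact (h1 P s (act P s φ)).1

theorem Dn_ls (h1 : TaskA1) {Q : MvPolynomial (Sy n) R} (h : Dn Q) : Dn (X none * Q) := by
  intro P
  obtain ⟨W, hW⟩ := h P
  refine ⟨ls W, fun s φ => ?_⟩
  rw [(h1 W s φ).2.1, ← hW]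
  exact (h1 Q s (act P s φ)).2.1

theorem Dn_lx (h1 : TaskA1) (i : Fin n) {Q : MvPolynomial (Sy n) R} (h : Dn Q) :
    Dn (X (some (Sum.inl i)) * Q) := by
  intro P
  obtain ⟨W, hW⟩ := h P
  refine ⟨lx i W, fun s φ => ?_⟩
  rw [(h1 W s φ).2.2.1 i, ← hW]
  exact (h1 Q s (act P s φ)).2.2.1 i

theorem Dn_ld (h1 : TaskA1) (i : Fin n) {Q : MvPolynomial (Sy n) R} (h : Dn Q) :
    Dn (ld i Q) := by
  intro P
  obtain ⟨W, hW⟩ := h P
  refine ⟨ld i W, fun s φ => ?_⟩
  rw [(h1 W s φ).2.2.2.1 i, ← hW]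
  exact (h1 Q s (act P s φ)).2.2.2.1 i

theorem Dn_C_mul (c : R) {Q : MvPolynomial (Sy n) R} (h : Dn Q) : Dn (C c * Q) := by
  rw [← smul_eq_C_mul]
  exact Dn_smul c h

theorem pd_zero (i : Fin n) (p : MvPolynomial (Fin n) R) :
    pderiv (some (Sum.inl i)) (rename (fun j => (some (Sum.inr j) : Sy n)) p) = 0 := by
  induction p using MvPolynomial.induction_on with
  | C a => rw [rename_C, pderiv_C]
  | add p q hp hq => rw [map_add, map_add, hp, hq, add_zero]
  | mul_X p j hp =>
    rw [map_mul, rename_X, pderiv_mul, hp, zero_mul, zero_add, pderiv_X_of_ne, mul_zero]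
    simp

theorem Dn_d (h1 : TaskA1) (p : MvPolynomial (Fin n) R) :
    Dn (rename (fun j => (some (Sum.inr j) : Sy n)) p) := by
  induction p using MvPolynomial.induction_on with
  | C a =>
    rw [rename_C]
    have := Dn_smul a (Dn_one (n := n) (R := R) h1)
    rwa [smul_eq_C_mul, mul_one] at this
  | add p q hp hq => rw [map_add]; exact Dn_add hp hq
  | mul_X p j hp =>
    rw [map_mul, rename_X]
    have h2 := Dn_ld h1 j hp
    unfold ld at h2
    rw [pd_zero, add_zero, mul_comm] at h2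
    exact h2

theorem Dn_x (h1 : TaskA1) (p : MvPolynomial (Fin n) R) : ∀ {Q : MvPolynomial (Sy n) R}, Dn Q →
    Dn (rename (fun j => (some (Sum.inl j) : Sy n)) p * Q) := by
  induction p using MvPolynomial.induction_on with
  | C a =>
    intro Q h
    rw [rename_C]
    exact Dn_C_mul a h
  | add p q hp hq =>
    intro Q h
    rw [map_add, add_mul]; exact Dn_add (hp h) (hq h)
  | mul_X p j hp =>
    intro Q h
    rw [map_mul, rename_X, mul_assoc]
    exact hp (Dn_lx h1 j h)

theorem Dn_s (h1 : TaskA1) (k : ℕ) {Q : MvPolynomial (Sy n) R} (h : Dn Q) :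
    Dn (X none ^ k * Q) := by
  induction k with
  | zero => rw [pow_zero, one_mul]; exact h
  | succ k ih => rw [pow_succ', mul_assoc]; exact Dn_ls h1 ih

theorem Dn_all (h1 : TaskA1) (Q : MvPolynomial (Sy n) R) : Dn Q := by
  induction Q using MvPolynomial.induction_on' with
  | monomial m a =>
    have h2 : monomial m a = C a * (X none ^ m none *
        (rename (fun j => (some (Sum.inl j) : Sy n)) (∏ i, X i ^ m (some (Sum.inl i))) *
          rename (fun j => (some (Sum.inr j) : Sy n))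
            ((∏ i, X i ^ m (some (Sum.inr i))) : MvPolynomial (Fin n) R))) := by
      rw [monomial_eq, Finsupp.prod_fintype _ _ (by simp), Fintype.prod_option,
        Fintype.prod_sum_type, map_prod, map_prod]
      simp only [map_pow, rename_X]
    rw [h2]
    exact Dn_C_mul a (Dn_s h1 _ (Dn_x h1 _ (Dn_d h1 _)))
  | add p q hp hq => exact Dn_add hp hq

end

theorem a5 : Pool.Agent.W425.GN.TaskA5 := by
  intro h1 n R _ P Q
  exact Dn_all h1 Q P

end Pool.Agent.W196.GN
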